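import Pool.Agent.W716.FV.StmB

set_option autoImplicit false

namespace Pool.Agent.W177.FV.CC

open Pool.Agent.W716.FV

theorem main : PrCongr := by
  intro V k ω ω' l
  induction l generalizing ω ω' with
  | nil =>
    intro _ _
    rfl
  | cons v t ih =>
    intro hl hω
    have hv : v ∉ t := (List.nodup_cons.mp hl).1
    have ht : t.Nodup := (List.nodup_cons.mp hl).2
    have h1 : ω ((v, k) :: (v, k + 1) :: t.map (fun u => (u, k + 1))) =
        ω' ((v, k) :: (v, k + 1) :: t.map (fun u => (u, k + 1))) := by
      apply hω
      · have hinj : (t.map (fun u => (u, k + 1))).Nodup :=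
          ht.map (fun a b h => (Prod.mk.inj h).1)
        have h2 : (v, k + 1) ∉ t.map (fun u => (u, k + 1)) := by
          intro h
          obtain ⟨u, hu, he⟩ := List.mem_map.mp h
          exact hv ((Prod.mk.inj he).1 ▸ hu)
        refine List.nodup_cons.mpr ⟨?_, List.nodup_cons.mpr ⟨h2, hinj⟩⟩
        intro h
        rcases List.mem_cons.mp h with h | h
        · have := (Prod.mk.inj h).2
          omega
        · obtain ⟨u, hu, he⟩ := List.mem_map.mp h
          exact hv ((Prod.mk.inj he).1 ▸ hu)
      · simp
      · intro x hx
        rcases List.mem_cons.mp hx with h | hx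
        · subst h
          exact ⟨List.mem_cons_self, Or.inl rfl⟩
        · rcases List.mem_cons.mp hx with h | hx
          · subst h
            exact ⟨List.mem_cons_self, Or.inr rfl⟩
          · obtain ⟨u, hu, he⟩ := List.mem_map.mp hx
            subst he
            exact ⟨List.mem_cons_of_mem _ hu, Or.inr rfl⟩
    have h2 := ih (fun t' => ω ((v, k) :: t')) (fun t' => ω' ((v, k) :: t')) ht (by
      intro t' ht' hlen hx
      apply hω
      · refine List.nodup_cons.mpr ⟨?_, ht'⟩
        intro h
        exact hv (hx _ h).1
      · simp only [List.length_cons]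
        omega
      · intro x hx'
        rcases List.mem_cons.mp hx' with h | h
        · subst h
          exact ⟨List.mem_cons_self, Or.inl rfl⟩
        · exact ⟨List.mem_cons_of_mem _ (hx x h).1, (hx x h).2⟩)
    simp only [pr]
    rw [h2, h1]

end Pool.Agent.W177.FV.CC
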